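import Pool.Agent.H978Z.Subst.Dyn
import Pool.Agent.H978Z.Subst.Mat

namespace Pool.Agent.Results.MP_db984e_an.IrrationalLebesgue

open MeasureTheory Pool.Agent.H978Z.Subst

/-- A primitive aperiodic substitution with irrational Perron-Frobenius eigenvalue whose system has
an `L^2` function with Lebesgue spectral measure. -/
theorem result : ∃ (d : ℕ) (σ : Fin d → List (Fin d)) (θ : ℝ),
    (∀ a, σ a ≠ []) ∧ Primitive σ ∧ (subshift σ).Infinite ∧ IsPF σ θ ∧ Irrational θ ∧
    (∃ μ, IsInvariantProb σ μ) ∧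
    ∀ μ, IsInvariantProb σ μ → ∃ f : (ℤ → Fin d) → ℂ, MemLp f 2 μ ∧
      IsSpectralMeasure μ f (volume : Measure (AddCircle (1 : ℝ))) := by
  refine ⟨32, sg, 2 + Real.sqrt 2, fun a h => ?_, primitive, subshift_infinite, isPF, ?_,
    exists_inv, fun μ hμ => ⟨obs, spectral hμ⟩⟩
  · have := (sg_len a).1
    rw [h] at this
    simp at this
  · have := irrational_sqrt_two.natCast_add 2
    simpa using this

end Pool.Agent.Results.MP_db984e_an.IrrationalLebesgue
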